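import Pool.Agent.V11118.Liouville
import Pool.Agent.V11118.BoxTree

/-!
Finiteness of the survival number is not invariant under quasi-isometries.
-/

namespace Pool.Agent.Results.MP_b633b3_co.NotQIInvariant

open Pool.Agent.V11118.Survival Pool.Agent.V11118.Products Pool.Agent.V11118.Tree

/-- Quasi-isometric graphs. -/
def QuasiIsometric {V W : Type*} (G : SimpleGraph V) (H : SimpleGraph W) : Prop :=
  ∃ (f : V → W) (l c : ℝ), 1 ≤ l ∧ 0 ≤ c ∧
    (∀ x y, l⁻¹ * G.dist x y - c ≤ H.dist (f x) (f y) ∧ (H.dist (f x) (f y) : ℝ) ≤ l * G.dist x y + c) ∧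
    ∀ z, ∃ x, (H.dist z (f x) : ℝ) ≤ c

theorem result : ∃ (V : Type) (G H : SimpleGraph V), Nice G ∧ Nice H ∧ QuasiIsometric G H ∧
    survival G < ⊤ ∧ survival H = ⊤ := by
  refine ⟨TV × ℤ, strongZ TG, boxZ TG, Pool.Agent.V11118.Liouville.nice,
    Pool.Agent.V11118.BoxTree.nice, ⟨id, 2, 0, by norm_num, le_rfl, ?_, fun z => ⟨z, by simp⟩⟩,
    lt_of_le_of_lt Pool.Agent.V11118.Liouville.survival_le (ENat.coe_lt_top 6),
    Pool.Agent.V11118.BoxTree.survival_eq⟩
  intro u w
  have h1 := le_strong_dist connected u w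
  have h2 := box_dist_le connected u w
  have h3 := le_box_dist connected u w
  have h4 : (strongZ TG).dist u w ≤ (boxZ TG).dist u w := by
    have := strong_dist_le connected u.1 w.1 u.2 w.2 ((boxZ TG).dist u w)
      (by have := abs_nonneg (u.2 - w.2); omega) (by omega)
    simpa using this
  have h5 : (boxZ TG).dist u w ≤ 2 * (strongZ TG).dist u w := by omega
  have h4' : ((strongZ TG).dist u w : ℝ) ≤ (boxZ TG).dist u w := by exact_mod_cast h4
  have h5' : ((boxZ TG).dist u w : ℝ) ≤ 2 * (strongZ TG).dist u w := by exact_mod_cast h5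
  have h6 : (0 : ℝ) ≤ (strongZ TG).dist u w := Nat.cast_nonneg _
  simp only [id]
  constructor <;> linarith

end Pool.Agent.Results.MP_b633b3_co.NotQIInvariant
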